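import Pool.Agent.helper50.NPT.Spec2

/-!
# Project NPT (MP_8f32d0_ag), row FPC: divisibility of Frobenius for the two descriptions of the cohomology of the Witt vectors
-/

set_option autoImplicit false

namespace NPT

open scoped Classical
open AN
open Pool.Agent.helper53.AU

noncomputable section

/-- the functions regular outside `S` form a ring -/
def FPC_sub {k F : Type} [Field k] [Field F] [Algebra k F] (S : Set (Place k F)) : Subring F where
  carrier := RegS S
  zero_mem' := fun P _ => P.ge_zero _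
  one_mem' := fun P _ => Or.inr (by rw [P.ord_one])
  add_mem' := fun ha hb P hP => (ha P hP).add (hb P hP)
  neg_mem' := fun ha P hP => (ha P hP).neg
  mul_mem' := fun ha hb P hP => by
    have h := (ha P hP).mul (hb P hP)
    rwa [add_zero] at h

theorem FPC_iter {p : ℕ} [Fact p.Prime] {B : Type} [CommRing B] (H : AddSubgroup (WittVector p B))
    (hH : ∀ X ∈ H, WittVector.frobenius X ∈ H) (n : ℕ) : ∀ X ∈ H, (WittVector.frobenius)^[n] X ∈ H := by
  induction n with
  | zero => exact fun X hX => hX
  | succ n ih =>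
    intro X hX
    rw [Function.iterate_succ_apply']
    exact hH _ (ih X hX)

theorem FPC_isub {p : ℕ} [Fact p.Prime] {B : Type} [CommRing B] (n : ℕ) (X Y : WittVector p B) :
    (WittVector.frobenius)^[n] (X - Y) = (WittVector.frobenius)^[n] X - (WittVector.frobenius)^[n] Y := by
  induction n with
  | zero => rfl
  | succ n ih => rw [Function.iterate_succ_apply', Function.iterate_succ_apply', Function.iterate_succ_apply', ih, map_sub]

theorem FPC_imap {p : ℕ} [Fact p.Prime] {B B' : Type} [CommRing B] [CommRing B'] (ι : B →+* B') (n : ℕ) (X : WittVector p B) :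
    WittVector.map ι ((WittVector.frobenius)^[n] X) = (WittVector.frobenius)^[n] (WittVector.map ι X) := by
  induction n with
  | zero => rfl
  | succ n ih =>
    rw [Function.iterate_succ_apply', Function.iterate_succ_apply', ← ih]
    exact WittVector.IsPoly.map (WittVector.frobenius_isPoly p) ι _

theorem FPC_pm {p : ℕ} [Fact p.Prime] {B : Type} [CommRing B] (H : AddSubgroup (WittVector p B)) (m : ℕ) {X : WittVector p B}
    (hX : X ∈ H) : (p : WittVector p B) ^ m * X ∈ H := by
  have h : (p : WittVector p B) ^ m * X = (p ^ m) • X := by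
    rw [nsmul_eq_mul]
    push_cast
    rfl
  rw [h]
  exact H.nsmul_mem hX _

theorem FPC (h1 : WSR_stmt) (h2 : WNO_stmt) (h3 : FPB_stmt) : FPC_stmt := by
  intro p _ k F _ _ _ _ _ hF P Q hPQ ι hι g γ a hK hA n m
  obtain ⟨hs, hi⟩ := h3 p k F hF P Q hPQ ι hι g γ a hK hA
  have hN := (h2 p k g γ a hK).2.1
  have hW := (h1 p F (FPC_sub ({P, Q} : Set (Place k F)))).2.2.1
  have hW' : ∀ X ∈ Wc p (RegS {P, Q} : Set F), WittVector.frobenius X ∈ Wc p (RegS {P, Q} : Set F) := hW
  have hmap : ∀ x y : WittVector p F, WittVector.map ι ((WittVector.frobenius)^[n] x - (p : WittVector p F) ^ m * y) =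
      (WittVector.frobenius)^[n] (WittVector.map ι x) - (p : WittVector p (LS k)) ^ m * WittVector.map ι y := by
    intro x y
    rw [map_sub, map_mul, map_pow, map_natCast, FPC_imap]
  have hmem : ∀ x ∈ Wc p (RegS {P, Q} : Set F), ∀ y ∈ Wc p (RegS {P, Q} : Set F),
      (WittVector.frobenius)^[n] x - (p : WittVector p F) ^ m * y ∈ Wc p (RegS {P, Q} : Set F) :=
    fun x hx y hy => AddSubgroup.sub_mem _ (FPC_iter _ hW' n x hx) (FPC_pm _ m hy)
  constructor
  · intro h X
    obtain ⟨x, hx, hXx⟩ := hs X
    obtain ⟨y, hy, hxy⟩ := h x hx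
    have e1 := (hi _ (hmem x hx y hy)).2 hxy
    rw [hmap] at e1
    have e2 := FPC_iter _ hN n _ hXx
    rw [FPC_isub] at e2
    refine ⟨WittVector.map ι y, ?_⟩
    have e3 := AddSubgroup.add_mem _ e2 e1
    rwa [sub_add_sub_cancel] at e3
  · intro h X hX
    obtain ⟨Y, hY⟩ := h (WittVector.map ι X)
    obtain ⟨y, hy, hYy⟩ := hs Y
    refine ⟨y, hy, (hi _ (hmem X hX y hy)).1 ?_⟩
    rw [hmap]
    have e1 := AddSubgroup.add_mem _ hY (FPC_pm _ m hYy)
    rw [mul_sub] at e1
    rwa [sub_add_sub_cancel] at e1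

end

end NPT
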